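import Pool.Agent.R83.PSat

set_option autoImplicit false

/-!
# Induced saturation numbers of disjoint unions of chains are at most linear
-/

namespace Pool.Agent.Results.MP_2b57cc_co.UnionsOfChains

open Finset Pool.Agent.R83.PSat

/-- The family `F` of subsets of `[n]` is induced `P`-saturated: it contains no induced copy of `P` (a map
`b : P → F` with `p ≤ q ↔ b p ⊆ b q`), and adding any other subset of `[n]` creates one. -/
def IsSat (P : Type) [PartialOrder P] {n : ℕ} (F : Finset (Finset (Fin n))) : Prop :=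
  ¬ HasCopy P F ∧ ∀ G : Finset (Fin n), G ∉ F → HasCopy P (insert G F)

/-- The induced saturation number `sat*(n, P)`. -/
noncomputable def satStar (n : ℕ) (P : Type) [PartialOrder P] : ℕ :=
  sInf {k | ∃ F : Finset (Finset (Fin n)), IsSat P F ∧ F.card = k}

lemma hasCopy_map {Q Q' : Type} [PartialOrder Q] [PartialOrder Q'] (P : Type) [PartialOrder P] (e : Q ≃o Q')
    (F : Finset Q) : HasCopy P (F.map e.toEquiv.toEmbedding) ↔ HasCopy P F := by
  constructor
  · rintro ⟨b, h1, h2⟩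
    refine ⟨fun p => e.symm (b p), ?_, fun p q => by rw [h2, e.symm.le_iff_le]⟩
    intro p
    obtain ⟨x, hx, hxe⟩ := mem_map.1 (h1 p)
    have : e.symm (b p) = x := by
      rw [← hxe]
      exact e.symm_apply_apply x
    change e.symm (b p) ∈ F
    rw [this]
    exact hx
  · rintro ⟨b, h1, h2⟩
    exact ⟨fun p => e (b p), fun p => mem_map.2 ⟨b p, h1 p, rfl⟩, fun p q => by rw [h2, e.le_iff_le]⟩

/-- The order isomorphism given by a bijection of the ground sets. -/
def finsetIso {α β : Type} (e : α ≃ β) : Finset α ≃o Finset β where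
  toEquiv := e.finsetCongr
  map_rel_iff' := by
    intro s t
    exact map_subset_map

lemma exists_isSat {m : ℕ} (hm : 1 ≤ m) (i : Fin m → ℕ) (hi : ∀ j, 1 ≤ i j) : ∃ C : ℕ, ∀ n : ℕ, 1 ≤ n →
    ∃ F : Finset (Finset (Fin n)), IsSat (Σ j : Fin m, Fin (i j)) F ∧ F.card ≤ C * n := by
  classical
  obtain ⟨j0, -, hmax⟩ := exists_max_image (univ : Finset (Fin m)) i ⟨⟨0, hm⟩, mem_univ _⟩
  have hmax' : ∀ j, i j ≤ i j0 := fun j => hmax j (mem_univ _)
  refine ⟨2 ^ (m + i j0 + 3) + 2 ^ (m + i j0) * (2 + 2 ^ (i j0)), ?_⟩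
  intro n hn
  rcases Nat.lt_or_ge n (m + i j0 + 3) with hsmall | hlarge
  · -- few elements
    have h0 : ¬ HasCopy (Σ j : Fin m, Fin (i j)) (∅ : Finset (Finset (Fin n))) := by
      rintro ⟨b, h1, -⟩
      exact absurd (h1 ⟨j0, ⟨0, hi j0⟩⟩) (notMem_empty _)
    obtain ⟨F, h1, h2, h3⟩ := exists_sat (Σ j : Fin m, Fin (i j)) (∅ : Finset (Finset (Fin n))) univ h0
      (fun G hG => absurd (mem_univ G) hG)
    refine ⟨F, ⟨h1, h2⟩, ?_⟩
    rw [card_univ, Fintype.card_finset, Fintype.card_fin] at h3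
    calc F.card ≤ 2 ^ n := h3
      _ ≤ 2 ^ (m + i j0 + 3) := Nat.pow_le_pow_right (by norm_num) hsmall.le
      _ ≤ (2 ^ (m + i j0 + 3) + 2 ^ (m + i j0) * (2 + 2 ^ (i j0))) * 1 := by omega
      _ ≤ _ := Nat.mul_le_mul_left _ hn
  · obtain ⟨n', rfl⟩ : ∃ n', n = m + i j0 + n' := ⟨n - (m + i j0), by omega⟩
    have hn' : 3 ≤ n' := by omega
    obtain ⟨F, h1, h2, h3⟩ := exists_sat (Σ j : Fin m, Fin (i j)) (F0 i j0 n') (UU i j0 n')
      (F0_free hn' hi) (fun G hG => F0_saturates hn' hmax' G hG)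
    have hcard : Fintype.card (ZZ i j0 ⊕ Fin n') = Fintype.card (Fin (m + i j0 + n')) := by
      simp
    let e : QQ i j0 n' ≃o Finset (Fin (m + i j0 + n')) :=
      (Finset.sumEquiv (α := ZZ i j0) (β := Fin n')).symm.trans (finsetIso (Fintype.equivOfCardEq hcard))
    refine ⟨F.map e.toEquiv.toEmbedding, ⟨?_, ?_⟩, ?_⟩
    · rw [hasCopy_map]
      exact h1
    · intro G hG
      have hG' : e.symm G ∉ F := by
        intro h
        apply hG
        rw [mem_map]
        exact ⟨e.symm G, h, e.apply_symm_apply G⟩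
      have h4 := (hasCopy_map (Σ j : Fin m, Fin (i j)) e (insert (e.symm G) F)).2 (h2 _ hG')
      rw [map_insert] at h4
      have h5 : e.toEquiv.toEmbedding (e.symm G) = G := e.apply_symm_apply G
      rw [h5] at h4
      exact h4
    · rw [card_map]
      calc F.card ≤ (UU i j0 n').card := h3
        _ ≤ 2 ^ (m + i j0) * ((n' + 1) * (2 + 2 ^ (i j0))) := UU_card i j0 n'
        _ ≤ 2 ^ (m + i j0) * ((m + i j0 + n') * (2 + 2 ^ (i j0))) :=
            Nat.mul_le_mul_left _ (Nat.mul_le_mul_right _ (by omega))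
        _ = (2 ^ (m + i j0) * (2 + 2 ^ (i j0))) * (m + i j0 + n') := by ring
        _ ≤ _ := Nat.mul_le_mul_right _ (Nat.le_add_left _ _)

/-- For all `m ≥ 1` and `i_1, ..., i_m ≥ 1` (in any order) there is a constant `C` such that
`sat*(n, C_{i_1} + ... + C_{i_m}) ≤ C n` for all `n ≥ 1`: there is an induced saturated family with at most `C n`
sets. The order on `Σ j, Fin (i j)` is the disjoint union of the chains `Fin (i j)`. -/
theorem result : ∀ m : ℕ, 1 ≤ m → ∀ i : Fin m → ℕ, (∀ j, 1 ≤ i j) → ∃ C : ℕ, ∀ n : ℕ, 1 ≤ n →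
    (∃ F : Finset (Finset (Fin n)), IsSat (Σ j : Fin m, Fin (i j)) F ∧ F.card ≤ C * n) ∧
    satStar n (Σ j : Fin m, Fin (i j)) ≤ C * n := by
  intro m hm i hi
  obtain ⟨C, hC⟩ := exists_isSat hm i hi
  refine ⟨C, fun n hn => ?_⟩
  obtain ⟨F, h1, h2⟩ := hC n hn
  exact ⟨⟨F, h1, h2⟩, le_trans (Nat.sInf_le ⟨F, h1, rfl⟩) h2⟩

end Pool.Agent.Results.MP_2b57cc_co.UnionsOfChains
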